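import Pool.Agent.R813.FanWedge

/-! # A smooth endpoint-generated fan that is not endpoint-homogeneous

Q1 is false: for the three-point set `X = {0, 1/3, 2/3}` there is a smooth `X`-EPG fan in the plane
with two endpoints that no homeomorphism of the fan interchanges. It is the wedge, at the top, of
two smooth `X`-EPG fans: in one of them the second derived set of the set of endpoints is contained
in the one-point set of the top, in the other every blade carries a further point of that second
derived set.

The definitions (`IsArc`, `IsSubcontinuum`, `HereditarilyUnicoherent`, `IsRamification`, `IsFan`,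
`IsEndpoint`, `IsSeg`, `IsSmooth`, `IsEPG`) are in `Pool/Agent/H545R3/FanDefs.lean`. -/

set_option autoImplicit false

open Set Topology Filter Pool.Agent.H545R3.Fan Pool.Agent.R813.FanWedge

namespace Pool.Agent.Results.MP_0958cc_gt.WedgeFan

/-- The set `{0, 1/3, 2/3} ⊆ [0,1]`. -/
def thirds : Set unitInterval := {t | (t : ℝ) = 0 ∨ (t : ℝ) = 1 / 3 ∨ (t : ℝ) = 2 / 3}

lemma thirds_eq : thirds = Z3 := by
  ext t
  constructor
  · rintro (h | h | h)
    · exact Or.inl (Subtype.ext h)
    · exact Or.inr (Or.inl (Subtype.ext h))
    · exact Or.inr (Or.inr (Subtype.ext h))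
  · rintro (h | h | h)
    · left; rw [h]
    · right; left; rw [h]
    · right; right; rw [h]

/-- There is a smooth `{0, 1/3, 2/3}`-EPG fan `F` (a subspace of the plane) with endpoints `e`, `e'`
such that no homeomorphism of `F` onto itself sends `e` to `e'`. -/
theorem result : ∃ (F : Set (ℝ × ℝ)) (t : F), IsFan F t ∧ IsSmooth t ∧ IsEPG t thirds ∧
    ∃ e e' : F, IsEndpoint e ∧ IsEndpoint e' ∧ ∀ h : F ≃ₜ F, h e ≠ e' := by
  rw [thirds_eq]
  refine ⟨Fan (WK KF), top (good_WK goodKF), isFan _, isSmooth _,
    epg_WK goodKF (Or.inl rfl) epgKF, ?_⟩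
  by_contra hcon
  apply not_hom
  intro e e' he he'
  by_contra h
  push Not at h
  exact hcon ⟨e, e', he, he', h⟩

end Pool.Agent.Results.MP_0958cc_gt.WedgeFan
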